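import Pool.Agent.D0H8.PQ.Defs
import Pool.Agent.X324.CF.Gr

/-!
# Mori dream spaces satisfy abundance
-/

set_option autoImplicit false

namespace Pool.Agent.D0H8.PQ

open Filter Topology
open Pool.Agent.X324.CF

variable {R : Type*} [CommRing R] [IsDomain R] [Algebra ℂ R]
  {ρ n : ℕ} {𝒜 : Cl ρ → Submodule ℂ R} {x : Fin n → R} {w : Fin n → Cl ρ} {u : Cl ρ}

omit [IsDomain R] in
/-- The Nullstellensatz. -/
theorem exists_point [IsReduced R] (hfin : Algebra.FiniteType ℂ R) {r : R} (hr : r ≠ 0) :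
    ∃ p : R →ₐ[ℂ] ℂ, p r ≠ 0 := by
  have hJ : IsJacobsonRing R := isJacobsonRing_of_finiteType (A := ℂ) (B := R)
  have h1 : (⊥ : Ideal R).jacobson = ⊥ := by
    have h2 := (isJacobsonRing_iff.1 hJ) (⊥ : Ideal R)
      (show (⊥ : Ideal R).IsRadical from (Ideal.isRadical_iff_quotient_reduced _).2 (by
        exact isReduced_of_injective (RingEquiv.quotientBot R) (RingEquiv.quotientBot R).injective))
    exact h2
  have h2 : r ∉ (⊥ : Ideal R).jacobson := by
    rw [h1]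
    exact hr
  rw [Ideal.jacobson, Submodule.mem_sInf] at h2
  push Not at h2
  obtain ⟨M, ⟨-, hM⟩, hrM⟩ := h2
  have : Ideal.IsMaximal M := hM
  let : Field (R ⧸ M) := Ideal.Quotient.field M
  have hft : Algebra.FiniteType ℂ (R ⧸ M) :=
    Algebra.FiniteType.of_surjective (Ideal.Quotient.mkₐ ℂ M) (Ideal.Quotient.mkₐ_surjective ℂ M)
  have hfin' : Module.Finite ℂ (R ⧸ M) := finite_of_finite_type_of_isJacobsonRing ℂ (R ⧸ M)
  have hint : Algebra.IsIntegral ℂ (R ⧸ M) := Algebra.IsIntegral.of_finite ℂ (R ⧸ M)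
  have hbij := IsAlgClosed.algebraMap_bijective_of_isIntegral (k := ℂ) (K := R ⧸ M)
  let e : ℂ ≃ₐ[ℂ] (R ⧸ M) := AlgEquiv.ofBijective (Algebra.ofId ℂ (R ⧸ M)) hbij
  refine ⟨(e.symm : (R ⧸ M) →ₐ[ℂ] ℂ).comp (Ideal.Quotient.mkₐ ℂ M), fun h => hrM ?_⟩
  have h3 : e.symm (Ideal.Quotient.mkₐ ℂ M r) = 0 := h
  rw [map_eq_zero_iff _ e.symm.injective] at h3
  exact Ideal.Quotient.eq_zero_iff_mem.1 h3

theorem fibre_mds [GradedAlgebra 𝒜] (D : IsMoriDream 𝒜 x w u) : IsFibre 𝒜 u where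
  point := D.point
  const := D.const
  gens := D.base.gens
  ample := D.ample
  sep := by
    intro β r hr hr0
    obtain ⟨p₀, m, hm, s, hs, hs0⟩ := D.point
    have hs' : s ≠ 0 := by
      rintro rfl
      exact hs0 (map_zero _)
    have hfin : Algebra.FiniteType ℂ R := by
      classical
      refine ⟨⟨Finset.univ.image x, ?_⟩⟩
      rw [← D.gen]
      congr 1
      simp
    obtain ⟨p, hp⟩ := exists_point hfin (mul_ne_zero hr0 hs')
    rw [map_mul] at hp
    exact ⟨p, ⟨m, hm, s, hs, right_ne_zero_of_mul hp⟩, left_ne_zero_of_mul hp⟩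

/-- Mori dream spaces satisfy abundance. -/
theorem abundant_mds [GradedAlgebra 𝒜] (D : IsMoriDream 𝒜 x w u) {β : Cl ρ} (hn : NefF 𝒜 u β) :
    SemiampleF 𝒜 u β := by
    obtain ⟨β', hβ'⟩ := hn
    have key : ∀ I ∈ nefF 𝒜 x u, rv β ∈ CI w I := by
      intro I hI
      have h1 : ∀ k : ℕ, (((k : ℝ) + 1)⁻¹) • rv (((k + 1 : ℕ)) • β + β') ∈ CI w I := fun k =>
        CI_smul (semiample_CI D (hβ' (k + 1)) I hI) (by positivity)
      have h2 : Tendsto (fun k : ℕ => (((k : ℝ) + 1)⁻¹) • rv (((k + 1 : ℕ)) • β + β')) atTop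
          (𝓝 (rv β)) := by
        have h3 : (fun k : ℕ => (((k : ℝ) + 1)⁻¹) • rv (((k + 1 : ℕ)) • β + β'))
            = fun k : ℕ => rv β + (((k : ℝ) + 1)⁻¹) • rv β' := by
          funext k
          have h4 : ((k : ℝ) + 1) ≠ 0 := by positivity
          rw [rv_add, rv_nsmul, smul_add, smul_smul]
          push_cast
          rw [inv_mul_cancel₀ h4, one_smul]
        rw [h3]
        have h5 : Tendsto (fun k : ℕ => (((k : ℝ) + 1)⁻¹)) atTop (𝓝 0) := by
          simpa using tendsto_one_div_add_atTop_nhds_zero_nat (𝕜 := ℝ)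
        have h6 := (h5.smul_const (rv β')).const_add (rv β)
        rwa [zero_smul, add_zero] at h6
      exact (CI_closed w I).mem_of_tendsto h2 (Eventually.of_forall h1)
    obtain ⟨m, hm, h1⟩ := exists_uniform (nefF 𝒜 x u) key
    refine ⟨m, hm, fun p hp => ?_⟩
    classical
    have hI : supp x p ∈ nefF 𝒜 x u :=
      Finset.mem_insert_of_mem (Finset.mem_filter.2 ⟨Finset.mem_univ _, p, hp, rfl⟩)
    obtain ⟨c, hc, hcm⟩ := h1 _ hI
    refine ⟨mon x c, ?_, ?_⟩
    · rw [hcm]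
      exact mon_mem D.mem c
    · rw [mon, map_prod]
      refine Finset.prod_ne_zero_iff.2 fun i _ => ?_
      rw [map_pow]
      by_cases hi : i ∈ supp x p
      · exact pow_ne_zero _ (mem_supp.1 hi)
      · rw [hc i hi, pow_zero]
        exact one_ne_zero

end Pool.Agent.D0H8.PQ
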