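import Pool.Agent.R800.UB.Fib

/-!
# The character on the kernel of the Chern form of a line bundle with a section
-/

set_option autoImplicit false

namespace Pool.Agent.D0H8.PQ

open Pool.Agent.W594.SYZ2 Pool.Agent.W594.SYZ2.TQ Pool.Agent.TH735.AQ

variable {V : Type*} [NormedAddCommGroup V] [NormedSpace ℂ V] [FiniteDimensional ℂ V]
  {Γ : Subgroup (V ≃ᵃ[ℂ] V)} {L : LineBundle Γ} {H : V → V → ℂ} {F : V → ℂ}

theorem continuous_form (hH : IsHermitian H) : Continuous fun v => (H v v).re := by
  have : FiniteDimensional ℝ V := FiniteDimensional.complexToReal V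
  let B : V →ₗ[ℝ] V →ₗ[ℝ] ℝ := LinearMap.mk₂ ℝ (fun x y => (H x y).re)
    (fun x x' y => by rw [hH.add_left, Complex.add_re])
    (fun c x y => by
      have : c • x = (c : ℂ) • x := (Complex.coe_smul c x).symm
      rw [this, hH.smul_left, Complex.re_ofReal_mul, smul_eq_mul])
    (fun x y y' => by rw [h_add_right hH, Complex.add_re])
    (fun c x y => by
      have : c • y = (c : ℂ) • y := (Complex.coe_smul c y).symm
      rw [this, h_smul_right hH, Complex.conj_ofReal, Complex.re_ofReal_mul, smul_eq_mul])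
  have h1 : (fun v => (H v v).re) = fun v => B v v := rfl
  rw [h1]
  let B' : V →L[ℝ] V →L[ℝ] ℝ := LinearMap.toContinuousLinearMap
    ((LinearMap.toContinuousLinearMap : (V →ₗ[ℝ] ℝ) ≃ₗ[ℝ] (V →L[ℝ] ℝ)).toLinearMap ∘ₗ B)
  have h2 : (fun v => B v v) = fun v => B' v v := rfl
  rw [h2]
  exact (B'.continuous).clm_apply continuous_id

/-- If `θ` is not zero and transforms under the lattice as the sections of `L`, then the character of
`L` on the lattice vectors in the kernel of the Chern form is trivial. -/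
theorem chi_one (hΓ : IsTorusQuotient Γ) (hH : IsHermitian H) (hpot : IsPot L H F) {θ : V → ℂ}
    (hθ : Differentiable ℂ θ) (h0 : ∃ v, θ v ≠ 0)
    (heq : ∀ (b : V) (hb : b ∈ latt Γ) (v : V), θ (b + v) = L.e (tr b hb) v * θ v) :
    ∀ b ∈ latt Γ, b ∈ ker hH → chi L F b = 1 := by
  have hF := hpot.1
  obtain ⟨v₀, hv₀⟩ := h0
  let U : V → ℂ := fun v => θ v * Complex.exp (-F v)
  have hU : Differentiable ℂ U := hθ.mul (Differentiable.neg (f := F) hF).cexp
  have hUeq : ∀ (b : V) (hb : b ∈ latt Γ) (v : V), U (b + v) = tw L F (tr b hb) v * U v := by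
    intro b hb v
    simp only [U]
    rw [heq b hb v, tw, tr_apply]
    have h4 : Complex.exp (-F (b + v))
        = Complex.exp (F v - F (b + v)) * Complex.exp (-F v) := by
      rw [← Complex.exp_add]
      congr 1
      ring
    rw [h4]
    ring
  let G : V → ℝ := fun v => ‖U v‖ ^ 2 * Real.exp (-(Real.pi * (H v v).re))
  have hGc : Continuous G := ((hU.continuous.norm).pow 2).mul
    (Real.continuous_exp.comp ((continuous_form hH).const_mul Real.pi).neg)
  have hGeq : ∀ (b : V) (_ : b ∈ latt Γ) (v : V), G (b + v) = G v := by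
    intro b hb v
    simp only [G]
    rw [hUeq b hb v, norm_mul, mul_pow, tw_norm hpot, tr_apply, mul_right_comm, ← Real.exp_add]
    rw [mul_comm]
    congr 2
    ring
  obtain ⟨C, hC⟩ := cobounded (latt Γ) hΓ.span_top
  have hK : IsCompact (Metric.closedBall (0 : V) C) := isCompact_closedBall _ _
  obtain ⟨B, hB⟩ := isBounded_iff_forall_norm_le.1 (hK.image hGc).isBounded
  have hGB : ∀ v, G v ≤ B := by
    intro v
    obtain ⟨b, hb, hbC⟩ := hC v
    rw [← hGeq b hb v]
    exact (Real.le_norm_self _).trans (hB _ ⟨b + v, by rwa [mem_closedBall_zero_iff], rfl⟩)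
  have : ProperSpace (ker hH) := FiniteDimensional.proper ℂ (ker hH)
  let u : ker hH → ℂ := fun x => U (v₀ + x)
  have hu : Differentiable ℂ u := by
    have h2 : Differentiable ℂ fun x : ker hH => v₀ + (x : V) :=
      (ker hH).subtypeL.differentiable.const_add v₀
    exact hU.comp h2
  have hbd : Bornology.IsBounded (Set.range u) := by
    rw [isBounded_iff_forall_norm_le]
    refine ⟨Real.sqrt (B * Real.exp (Real.pi * (H v₀ v₀).re)), ?_⟩
    rintro _ ⟨x, rfl⟩
    refine Real.le_sqrt_of_sq_le ?_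
    have h1 := hGB (v₀ + x)
    simp only [G] at h1
    have h2 : H (v₀ + x) (v₀ + x) = H v₀ v₀ := by
      rw [hH.add_left, x.2 (v₀ + x), add_zero, h_add_right hH, h_ker_right hH x.2, add_zero]
    rw [h2, Real.exp_neg, ← div_eq_mul_inv, div_le_iff₀ (Real.exp_pos _)] at h1
    exact h1
  intro b hb hbK
  have h1 : u (⟨b, hbK⟩ + 0) = chi L F b * u 0 := by
    simp only [u]
    rw [add_zero]
    have h3 := hUeq b hb v₀
    rw [tw_tr_ker hH hpot hb hbK] at h3
    change U (v₀ + b) = chi L F b * U (v₀ + 0)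
    rw [add_comm v₀ b, h3, add_zero]
  have h2 : u (⟨b, hbK⟩ + 0) = u 0 := hu.apply_eq_apply_of_bounded hbd _ _
  rw [h2] at h1
  have h3 : u 0 ≠ 0 := by
    simp only [u, U, Submodule.coe_zero, add_zero]
    exact mul_ne_zero hv₀ (Complex.exp_ne_zero _)
  exact (mul_right_cancel₀ h3 ((one_mul _).trans h1)).symm

end Pool.Agent.D0H8.PQ
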