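import Pool.Agent.D0H8.PQ.Defs
import Pool.Agent.D0H8.PQ.Chi
import Pool.Agent.X324.CF.Cls

/-!
# Abundance on quotients `(A × F) / G`
-/

set_option autoImplicit false

namespace Pool.Agent.D0H8.PQ

open Pool.Agent.W594.SYZ2 Pool.Agent.W594.SYZ2.TQ Pool.Agent.TH735.AQ Pool.Agent.X324.CF
open Pool.Agent.R893.TQ (BaseFree exists_bad)
open Pool.Agent.R800.UA (gl3 gl3_pos card_dvd power_uni baseFree_of_dvd natCast_mul_re)
open Pool.Agent.R800.UB (fibration_root bpf_of_pullsBack)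

variable {V R : Type*} [NormedAddCommGroup V] [NormedSpace ℂ V] [CommRing R] [Algebra ℂ R]
  {ρ n : ℕ} {𝒜 : Cl ρ → Submodule ℂ R} {Γ : Grp V R} {u : Cl ρ} {H : V → V → ℂ}

theorem autF_eq : autF Γ = gal Γ := rfl

/-! ### Classes of `F` -/

section F

variable [GradedAlgebra 𝒜]

theorem FreeF.nsmul {β : Cl ρ} {m : ℕ} (h : FreeF 𝒜 u β m) (k : ℕ) : FreeF 𝒜 u (k • β) m := by
  intro p hp
  obtain ⟨r, hr, hr0⟩ := h p hp
  refine ⟨r ^ k, ?_, ?_⟩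
  · have h1 := SetLike.pow_mem_graded k hr
    have h2 : k • (m • β) = m • (k • β) := by rw [smul_smul, smul_smul, mul_comm]
    rwa [h2] at h1
  · rw [map_pow]
    exact pow_ne_zero k hr0

theorem nefF_of_semiample {β : Cl ρ} (h : SemiampleF 𝒜 u β) : NefF 𝒜 u β := by
  obtain ⟨m, hm, h1⟩ := h
  exact ⟨0, fun k => ⟨m, hm, by
    rw [add_zero]
    exact FreeF.nsmul (m := m) h1 k⟩⟩

theorem nefF_zero : NefF 𝒜 u (0 : Cl ρ) :=
  nefF_of_semiample ⟨1, one_pos, fun p _ => ⟨1, by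
    rw [smul_zero]; exact SetLike.GradedOne.one_mem, by
    rw [map_one]; exact one_ne_zero⟩⟩

end F

/-! ### Sections of powers -/

section Sec

variable [FiniteDimensional ℂ V] [GradedAlgebra 𝒜]

/-- The sections of the line bundle on `V / base Γ` and the norms of the sections on `F`. -/
theorem free_of (hQ : IsQuotient 𝒜 u Γ) (𝓛 : Sheaf 𝒜 Γ) {a m : ℕ}
    (ha : BaseFree ((𝓛.toLB hQ).pow a)) (hm : FreeF 𝒜 u 𝓛.deg m) :
    Free 𝓛 u (expo Γ * a * m) := by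
  classical
  have := hQ.fin_gal
  have : Fintype (gal Γ) := Fintype.ofFinite _
  intro v p hp
  obtain ⟨s, hs, hsv⟩ := ha v
  obtain ⟨r, hr, hr0⟩ := exists_nonvanish (K := gal Γ) (𝒜 := 𝒜) (β := m • 𝓛.deg) (p := p) (by
      intro φ
      have hq := semistable_comp hQ hp φ.2
      obtain ⟨r, hr, hr0⟩ := hm _ hq
      exact ⟨r, hr, hr0⟩)
  refine ⟨fun w => s w ^ m • nrm (gal Γ) r ^ (Nat.card (Lin (base Γ)) * a),
    ⟨fun w => ?_, fun ℓ => ?_, fun γ w => ?_⟩, ?_⟩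
  · refine (𝒜 _).smul_mem _ ?_
    have h1 := nrm_mem (𝒜 := 𝒜) (K := gal Γ) (fun φ hφ r hr => gal_mem hQ (𝓛.inv.nsmul m) hφ hr) hr
    have h2 := SetLike.pow_mem_graded (Nat.card (Lin (base Γ)) * a) h1
    have h3 : (Nat.card (Lin (base Γ)) * a) • (Fintype.card (gal Γ) • m • 𝓛.deg)
        = (expo Γ * a * m) • 𝓛.deg := by
      rw [← Nat.card_eq_fintype_card, expo, smul_smul, smul_smul]
      congr 1
      ring
    rwa [h3] at h2
  · have h1 : (fun w => ℓ (s w ^ m • nrm (gal Γ) r ^ (Nat.card (Lin (base Γ)) * a)))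
        = fun w => s w ^ m * ℓ (nrm (gal Γ) r ^ (Nat.card (Lin (base Γ)) * a)) := by
      funext w
      rw [map_smul, smul_eq_mul]
    rw [h1]
    exact (hs.holo.pow m).mul_const _
  · rw [map_smul, map_pow, nrm_fix (mem_gal γ.2), smul_smul]
    congr 1
    have h1 := hs.eq ⟨γ.1.1, mem_base γ.2⟩ w
    have h2 := 𝓛.toLB_e hQ γ w
    change s (γ.1.1 w) ^ m = 𝓛.e γ w ^ (expo Γ * a * m) * s w ^ m
    have h3 : s (γ.1.1 w) = (𝓛.toLB hQ).e ⟨γ.1.1, mem_base γ.2⟩ w ^ a * s w := h1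
    rw [h3, h2, mul_pow, ← pow_mul, ← pow_mul, mul_assoc]
  · rw [map_smul, map_pow, smul_eq_mul]
    exact mul_ne_zero (pow_ne_zero _ hsv) (pow_ne_zero _ hr0)

theorem nef_expo (hn : IsNefForm H) : IsNefForm (fun v w => (expo Γ : ℂ) * H v w) := by
  intro v
  change 0 ≤ ((expo Γ : ℂ) * H v v).re
  rw [natCast_mul_re]
  exact mul_nonneg (Nat.cast_nonneg _) (hn v)

/-- Effective abundance if `H^1(X, O_X) = 0`. -/
theorem eff_one (hQ : IsQuotient 𝒜 u Γ) (h01 : HOneZero (base Γ)) (hd : Module.finrank ℂ V = n)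
    {𝓛 : Sheaf 𝒜 Γ} (hc : 𝓛.IsChern H) (hn : IsNefForm H) {m : ℕ} (hm : FreeF 𝒜 u 𝓛.deg m) :
    Free 𝓛 u (4 * gl3 n ^ 6 * Nat.card (autF Γ) * m) := by
  obtain ⟨c, hcn⟩ := card_dvd hQ.torus hd
  have h1 := power_uni hQ.torus h01 hd (𝓛.toLB_chern hQ hc) (nef_expo hn)
  have h2 : BaseFree ((𝓛.toLB hQ).pow (4 * gl3 n ^ 5 * c)) := baseFree_of_dvd ⟨c, rfl⟩ h1
  have h3 := free_of hQ 𝓛 h2 hm
  have h4 : expo Γ * (4 * gl3 n ^ 5 * c) * m = 4 * gl3 n ^ 6 * Nat.card (autF Γ) * m := by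
    rw [expo, autF_eq]
    calc Nat.card (Lin (base Γ)) * Nat.card (gal Γ) * (4 * gl3 n ^ 5 * c) * m
        = 4 * (gl3 n ^ 5 * (Nat.card (Lin (base Γ)) * c)) * Nat.card (gal Γ) * m := by ring
      _ = 4 * gl3 n ^ 6 * Nat.card (gal Γ) * m := by rw [← hcn, ← pow_succ]
  rwa [h4] at h3

/-- Powers. -/
theorem free_pow {𝓛 : Sheaf 𝒜 Γ} {j M : ℕ} (h : Free (𝓛.pow j) u M) : Free 𝓛 u (j * M) := by
  intro v p hp
  obtain ⟨f, hf, hf0⟩ := h v p hp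
  refine ⟨f, ⟨fun w => ?_, hf.holo, fun γ w => ?_⟩, hf0⟩
  · have h1 : f w ∈ 𝒜 (M • (j • 𝓛.deg)) := hf.mem w
    rwa [smul_smul, mul_comm] at h1
  · have h1 : f (γ.1.1 w) = (𝓛.e γ w ^ j) ^ M • γ.1.2 (f w) := hf.eq γ w
    rwa [← pow_mul] at h1

end Sec

section Dom

variable [FiniteDimensional ℂ V] [IsDomain R] [GradedAlgebra 𝒜]

theorem nef_of_free (hQ : IsQuotient 𝒜 u Γ) {𝓛 : Sheaf 𝒜 Γ} (hc : 𝓛.IsChern H) {m : ℕ}
    (hm : 1 ≤ m) {f : V → R} (hf : 𝓛.IsPowSection m f) (h0 : ∃ v, f v ≠ 0) : IsNefForm H := by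
  have h1 := Sheaf.nef_of_section hQ (Sheaf.chern_pow hc m) hf.sec h0
  intro v
  have h2 : 0 ≤ ((m : ℂ) * H v v).re := h1 v
  rw [natCast_mul_re] at h2
  have h3 : (0 : ℝ) < m := by exact_mod_cast hm
  exact nonneg_of_mul_nonneg_right h2 h3

omit [FiniteDimensional ℂ V] [IsDomain R] [GradedAlgebra 𝒜] in
theorem diff_prod {ι : Type*} (s : Finset ι) (f : ι → V → ℂ)
    (h : ∀ i ∈ s, Differentiable ℂ (f i)) : Differentiable ℂ fun v => ∏ i ∈ s, f i v := by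
  classical
  induction s using Finset.induction_on with
  | empty =>
    simp only [Finset.prod_empty]
    exact differentiable_const _
  | insert a s ha ih =>
    have h1 : (fun v => ∏ i ∈ insert a s, f i v) = fun v => f a v * ∏ i ∈ s, f i v := by
      funext v
      rw [Finset.prod_insert ha]
    rw [h1]
    exact (h a (Finset.mem_insert_self _ _)).mul
      (ih fun i hi => h i (Finset.mem_insert_of_mem hi))

omit [FiniteDimensional ℂ V] [IsDomain R] [GradedAlgebra 𝒜] in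
theorem nrm_smul_map [Fintype (gal Γ)] {φ : R ≃ₐ[ℂ] R} (hφ : φ ∈ gal Γ) (c : ℂ) (r : R) :
    nrm (gal Γ) (c • φ r) = c ^ Fintype.card (gal Γ) • nrm (gal Γ) r := by
  have h1 : nrm (gal Γ) (c • φ r) = ∏ ψ : gal Γ, (algebraMap ℂ R c * ψ.1 (φ r)) := by
    refine Finset.prod_congr rfl fun ψ _ => ?_
    rw [map_smul, Algebra.smul_def]
  rw [h1, Finset.prod_mul_distrib, Finset.prod_const, Finset.card_univ, ← map_pow,
    ← Algebra.smul_def]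
  congr 1
  exact Fintype.prod_equiv (Equiv.mulRight (⟨φ, hφ⟩ : gal Γ)) _ _ fun ψ => rfl

/-- Effective abundance for effective sheaves. -/
theorem eff_two (hF : IsFibre 𝒜 u) (hQ : IsQuotient 𝒜 u Γ) (hd : Module.finrank ℂ V = n)
    {𝓛 : Sheaf 𝒜 Γ} (hc : 𝓛.IsChern H) {f : V → R} (hf : 𝓛.IsSection f) (h0 : ∃ v, f v ≠ 0)
    {m : ℕ} (hm : FreeF 𝒜 u 𝓛.deg m) :
    Free 𝓛 u (4 * gl3 n ^ 8 * Nat.card (autF Γ) * m) := by
  classical
  have := hQ.fin_gal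
  have : Fintype (gal Γ) := Fintype.ofFinite _
  have hn : IsNefForm H := Sheaf.nef_of_section hQ hc hf h0
  obtain ⟨v₀, hv₀⟩ := h0
  have h1 := nrm_mem (𝒜 := 𝒜) (K := gal Γ) (fun φ hφ r hr => gal_mem hQ 𝓛.inv hφ hr) (hf.mem v₀)
  obtain ⟨p, -, hp⟩ := hF.sep _ _ h1 (nrm_ne_zero hv₀)
  have hc' := 𝓛.toLB_chern hQ hc
  obtain ⟨hH', F, hFd, hFe⟩ := hc'
  have hpot : IsPot (𝓛.toLB hQ) (fun v w => (expo Γ : ℂ) * H v w) F := ⟨hFd, hFe⟩
  let θ : V → ℂ := fun v => p (nrm (gal Γ) (f v)) ^ Nat.card (Lin (base Γ))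
  have hθ : Differentiable ℂ θ := by
    have h2 : (fun v => p (nrm (gal Γ) (f v))) = fun v => ∏ ψ : gal Γ, p (ψ.1 (f v)) := by
      funext v
      rw [nrm, map_prod]
    have h3 : Differentiable ℂ fun v => p (nrm (gal Γ) (f v)) := by
      rw [h2]
      exact diff_prod Finset.univ (fun (ψ : gal Γ) v => p (ψ.1 (f v))) fun ψ _ =>
        hf.holo (p.toLinearMap ∘ₗ ψ.1.toLinearMap)
    exact h3.pow _
  have hroot := chi_one hQ.torus hH' hpot hθ ⟨v₀, pow_ne_zero _ hp⟩ (by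
    intro b hb v
    obtain ⟨γ, hγ, hγb⟩ := hb
    have h2 : f (b + v) = 𝓛.e ⟨γ, hγ⟩ v • γ.2 (f v) := by
      have h3 := hf.eq ⟨γ, hγ⟩ v
      have h4 : γ.1 v = b + v := by
        have h5 : γ.1 = AffineEquiv.constVAdd ℂ V b := hγb
        rw [h5]
        rfl
      rw [← h4]
      exact h3
    have h6 : (𝓛.toLB hQ).e (tr b ⟨γ, hγ, hγb⟩) v = 𝓛.e ⟨γ, hγ⟩ v ^ expo Γ := by
      rw [← 𝓛.toLB_e hQ ⟨γ, hγ⟩ v]
      congr 1
      exact Subtype.ext hγb.symm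
    simp only [θ]
    rw [h2, nrm_smul_map (mem_gal hγ), map_smul, smul_eq_mul, mul_pow, h6, ← pow_mul,
      ← Nat.card_eq_fintype_card, expo, mul_comm (Nat.card (gal Γ))])
  obtain ⟨k, Δ, π, -, hfib, hpb⟩ := fibration_root hQ.torus hd hH' hpot (nef_expo hn)
    fun b hb hbK => by rw [hroot b hb hbK, one_pow]
  have h2 := bpf_of_pullsBack hfib hpb
  obtain ⟨c, hcn⟩ := card_dvd hQ.torus hd
  have h3 : BaseFree ((𝓛.toLB hQ).pow (4 * gl3 n ^ 7 * c)) := baseFree_of_dvd ⟨c, rfl⟩ h2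
  have h4 := free_of hQ 𝓛 h3 hm
  have h5 : expo Γ * (4 * gl3 n ^ 7 * c) * m = 4 * gl3 n ^ 8 * Nat.card (autF Γ) * m := by
    rw [expo, autF_eq]
    calc Nat.card (Lin (base Γ)) * Nat.card (gal Γ) * (4 * gl3 n ^ 7 * c) * m
        = 4 * (gl3 n ^ 7 * (Nat.card (Lin (base Γ)) * c)) * Nat.card (gal Γ) * m := by ring
      _ = 4 * gl3 n ^ 8 * Nat.card (gal Γ) * m := by rw [← hcn, ← pow_succ]
  rwa [h5] at h4

theorem pos_gl {k m : ℕ} (hQ : IsQuotient 𝒜 u Γ) (hm : 0 < m) :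
    0 < 4 * gl3 n ^ k * Nat.card (autF Γ) * m := by
  have := hQ.fin_gal
  have h1 : 0 < Nat.card (autF Γ) := Nat.card_pos (α := gal Γ)
  have h2 := gl3_pos n
  positivity

/-- A sheaf is semiample if and only if its degree is semiample on `F` and some positive power has a
section. -/
theorem semiample_iff (hF : IsFibre 𝒜 u) (hQ : IsQuotient 𝒜 u Γ) {𝓛 : Sheaf 𝒜 Γ}
    (hc : 𝓛.IsChern H) : 𝓛.IsSemiample u ↔ SemiampleF 𝒜 u 𝓛.deg ∧ Effective 𝓛 := by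
  constructor
  · rintro ⟨m, hm, h1⟩
    obtain ⟨p, hp⟩ := hF.point
    obtain ⟨f, hf, hf0⟩ := h1 0 p hp
    refine ⟨⟨m, hm, fun p hp => ?_⟩, m, hm, f, hf, 0, fun h => hf0 (by
      rw [h, map_zero])⟩
    obtain ⟨f, hf, hf0⟩ := h1 0 p hp
    exact ⟨f 0, hf.mem 0, hf0⟩
  · rintro ⟨⟨m, hm, h2⟩, j, hj, f, hf, h0⟩
    have h3 : FreeF 𝒜 u (𝓛.pow j).deg m := FreeF.nsmul (m := m) h2 j
    have h4 := eff_two hF hQ rfl (Sheaf.chern_pow hc j) hf.sec h0 h3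
    exact ⟨_, Nat.mul_pos hj (pos_gl (k := 8) (n := Module.finrank ℂ V) hQ hm), free_pow h4⟩

theorem semiample_of_nef (hQ : IsQuotient 𝒜 u Γ) (h01 : HOneZero (base Γ))
    {𝓛 : Sheaf 𝒜 Γ} (hc : 𝓛.IsChern H) (hn : IsNefForm H) (hF : SemiampleF 𝒜 u 𝓛.deg) :
    𝓛.IsSemiample u := by
  obtain ⟨m, hm, h2⟩ := hF
  have h3 : FreeF 𝒜 u 𝓛.deg m := h2
  exact ⟨_, pos_gl (k := 6) (n := Module.finrank ℂ V) hQ hm, eff_one hQ h01 rfl hc hn h3⟩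

theorem nef_of_semiample (hF : IsFibre 𝒜 u) (hQ : IsQuotient 𝒜 u Γ)
    {𝓛 : Sheaf 𝒜 Γ} (hc : 𝓛.IsChern H) (hs : 𝓛.IsSemiample u) : Nef 𝓛 u H := by
  obtain ⟨h1, m, hm, f, hf, h0⟩ := (semiample_iff hF hQ hc).1 hs
  exact ⟨nef_of_free hQ hc hm hf h0, nefF_of_semiample h1⟩

/-- The limit form of nefness. -/
theorem nef_of_twist (hF : IsFibre 𝒜 u) (hQ : IsQuotient 𝒜 u Γ) {𝓛 𝓤 : Sheaf 𝒜 Γ}
    {H' : V → V → ℂ} (hc : 𝓛.IsChern H) (hc' : 𝓤.IsChern H')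
    (h : ∀ k : ℕ, (twist 𝓛 𝓤 k).IsSemiample u) : Nef 𝓛 u H := by
  refine ⟨fun v => ?_, 𝓤.deg, fun k => ?_⟩
  · by_contra hneg
    push Not at hneg
    obtain ⟨k, hk⟩ := exists_nat_gt ((H' v v).re / -(H v v).re)
    have h1 : (twist 𝓛 𝓤 k).IsChern (fun v w => (k : ℂ) * H v w + H' v w) :=
      Sheaf.chern_tensor (Sheaf.chern_pow hc k) hc'
    have h2 : 0 ≤ ((k : ℂ) * H v v + H' v v).re := (nef_of_semiample hF hQ h1 (h k)).1 v
    rw [Complex.add_re, natCast_mul_re] at h2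
    rw [div_lt_iff₀ (by linarith)] at hk
    nlinarith
  · obtain ⟨m, hm, h1⟩ := h k
    refine ⟨m, hm, fun p hp => ?_⟩
    obtain ⟨f, hf, hf0⟩ := h1 0 p hp
    exact ⟨f 0, hf.mem 0, hf0⟩

/-- If `H^1(X, O_X) ≠ 0` there is a numerically trivial sheaf no power of which has a section. -/
theorem exists_bad' (hF : IsFibre 𝒜 u) (hQ : IsQuotient 𝒜 u Γ) (h01 : ¬ HOneZero (base Γ)) :
    ∃ 𝓛 : Sheaf 𝒜 Γ, 𝓛.deg = 0 ∧ 𝓛.IsChern (fun _ _ => 0) ∧ ¬ Effective 𝓛 := by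
  obtain ⟨P, hP, hbad⟩ := exists_bad hQ.torus h01
  refine ⟨Sheaf.ofLB P, rfl, Sheaf.ofLB_chern hP, ?_⟩
  rintro ⟨m, hm, f, hf, v, hv⟩
  obtain ⟨p, hp⟩ := hF.point
  have hmem : ∀ w, f w ∈ 𝒜 0 := by
    intro w
    have h1 : f w ∈ 𝒜 (m • (0 : Cl ρ)) := hf.mem w
    rwa [smul_zero] at h1
  choose c hc using fun w => hF.const _ (hmem w)
  have hpc : ∀ w, p (f w) = c w := by
    intro w
    rw [hc w, AlgHom.commutes]
    rfl
  have h1 : (P.pow m).IsSection fun w => p (f w) := by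
    refine ⟨hf.holo p.toLinearMap, fun b w => ?_⟩
    obtain ⟨γ, hγ⟩ := Sheaf.exists_lift b
    have h2 : f (γ.1.1 w) = (P.e ⟨γ.1.1, mem_base γ.2⟩ w) ^ m • γ.1.2 (f w) := hf.eq γ w
    have h3 : (⟨γ.1.1, mem_base γ.2⟩ : base Γ) = b := Subtype.ext hγ
    rw [h3, hγ] at h2
    change p (f ((b : V ≃ᵃ[ℂ] V) w)) = P.e b w ^ m * p (f w)
    rw [h2, map_smul, smul_eq_mul, hpc, hc w, AlgEquiv.commutes, AlgHom.commutes]
    rfl
  have h2 := hbad m hm _ h1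
  apply hv
  have h3 : p (f v) = 0 := congrFun h2 v
  rw [hpc] at h3
  rw [hc v, h3, map_zero]

/-- If all nef sheaves on `X` are semiample, then the invariant nef classes of `F` are semiample. -/
theorem fibre_of_total (hF : IsFibre 𝒜 u) (hQ : IsQuotient 𝒜 u Γ)
    (h : ∀ (𝓛 : Sheaf 𝒜 Γ) (H : V → V → ℂ), 𝓛.IsChern H → Nef 𝓛 u H → 𝓛.IsSemiample u)
    {β : Cl ρ} (hβ : Inv 𝒜 Γ β) (hn : NefF 𝒜 u β) : SemiampleF 𝒜 u β := by
  have D : Base 𝒜 (fun i : Fin 0 => (0 : Cl ρ)) :=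
    ⟨hF.gens, fun c _ => funext fun i => i.elim0⟩
  have hfin := hQ.fin_gal
  have hpos : 0 < Nat.card (gal Γ) := Nat.card_pos
  have hc : (ofDeg D hQ β hβ).IsChern (fun _ _ => 0) := ofDeg_chern
  obtain ⟨β', hβ'⟩ := hn
  have h1 := h (ofDeg D hQ β hβ) _ hc ⟨fun v => le_of_eq rfl, β', fun k => by
    have h2 := hβ' (k * Nat.card (gal Γ))
    change SemiampleF 𝒜 u (k • (Nat.card (gal Γ) • β) + β')
    rwa [smul_smul]⟩
  obtain ⟨m, hm, h3⟩ := ((semiample_iff hF hQ hc).1 h1).1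
  refine ⟨m * Nat.card (gal Γ), Nat.mul_pos hm hpos, fun p hp => ?_⟩
  obtain ⟨r, hr, hr0⟩ := h3 p hp
  have h4 : r ∈ 𝒜 (m • (Nat.card (gal Γ) • β)) := hr
  rw [smul_smul] at h4
  exact ⟨r, h4, hr0⟩

/-- The reduction theorem. -/
theorem total_iff (hF : IsFibre 𝒜 u) (hQ : IsQuotient 𝒜 u Γ) :
    (∀ (𝓛 : Sheaf 𝒜 Γ) (H : V → V → ℂ), 𝓛.IsChern H → Nef 𝓛 u H → 𝓛.IsSemiample u) ↔
      HOneZero (base Γ) ∧ ∀ β, Inv 𝒜 Γ β → NefF 𝒜 u β → SemiampleF 𝒜 u β := by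
  constructor
  · intro h
    refine ⟨?_, fun β hβ hn => fibre_of_total hF hQ h hβ hn⟩
    by_contra h01
    obtain ⟨𝓛, hdeg, hc, hbad⟩ := exists_bad' hF hQ h01
    refine hbad ((semiample_iff hF hQ hc).1 (h 𝓛 _ hc ⟨fun v => le_of_eq rfl, ?_⟩)).2
    rw [hdeg]
    exact nefF_zero
  · rintro ⟨h01, h⟩ 𝓛 H hc hn
    exact semiample_of_nef hQ h01 hc hn.1 (h _ 𝓛.inv hn.2)

end Dom

/-! ### Invariant classes of rank one -/

section Rank

variable [GradedAlgebra 𝒜]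

theorem FreeF.of_mul {β : Cl ρ} {m : ℕ} (h : FreeF 𝒜 u β m) (k : ℕ) : FreeF 𝒜 u β (k * m) := by
  intro p hp
  obtain ⟨r, hr, hr0⟩ := h p hp
  refine ⟨r ^ k, ?_, ?_⟩
  · have h1 := SetLike.pow_mem_graded k hr
    rwa [smul_smul] at h1
  · rw [map_pow]
    exact pow_ne_zero k hr0

theorem sa_add {β β' : Cl ρ} (h : SemiampleF 𝒜 u β) (h' : SemiampleF 𝒜 u β') :
    SemiampleF 𝒜 u (β + β') := by
  obtain ⟨m, hm, h1⟩ := h
  obtain ⟨m', hm', h2⟩ := h'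
  refine ⟨m * m', Nat.mul_pos hm hm', fun p hp => ?_⟩
  obtain ⟨r, hr, hr0⟩ := h1 p hp
  obtain ⟨s, hs, hs0⟩ := h2 p hp
  refine ⟨r ^ m' * s ^ m, ?_, ?_⟩
  · have e : (m * m') • (β + β') = m' • (m • β) + m • (m' • β') := by
      rw [smul_add, mul_comm m m', mul_smul, mul_comm m' m, mul_smul]
    rw [e]
    exact SetLike.mul_mem_graded (SetLike.pow_mem_graded m' hr) (SetLike.pow_mem_graded m hs)
  · rw [map_mul, map_pow, map_pow]
    exact mul_ne_zero (pow_ne_zero _ hr0) (pow_ne_zero _ hs0)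

theorem sa_nsmul {β : Cl ρ} (h : SemiampleF 𝒜 u β) (k : ℕ) : SemiampleF 𝒜 u (k • β) := by
  obtain ⟨m, hm, h1⟩ := h
  exact ⟨m, hm, FreeF.nsmul (m := m) h1 k⟩

omit [GradedAlgebra 𝒜] in
theorem sa_of_nsmul {β : Cl ρ} {k : ℕ} (hk : 0 < k) (h : SemiampleF 𝒜 u (k • β)) :
    SemiampleF 𝒜 u β := by
  obtain ⟨m, hm, h1⟩ := h
  refine ⟨m * k, Nat.mul_pos hm hk, fun p hp => ?_⟩
  obtain ⟨r, hr, hr0⟩ := h1 p hp
  rw [smul_smul] at hr
  exact ⟨r, hr, hr0⟩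

theorem sa_u (hF : IsFibre 𝒜 u) : SemiampleF 𝒜 u u := by
  obtain ⟨m, hm⟩ := hF.ample u
  refine sa_of_nsmul (k := m + 1) (Nat.succ_pos m) ?_
  rwa [add_smul, one_smul, add_comm]

theorem rank_one (hF : IsFibre 𝒜 u) {β : Cl ρ} {a b : ℤ} (hb : b ≠ 0) (hab : b • β = a • u)
    (hn : NefF 𝒜 u β) : SemiampleF 𝒜 u β := by
  -- we can assume that `b` is positive
  obtain ⟨b, a, hb, hab⟩ : ∃ (b : ℕ) (a : ℤ), 0 < b ∧ b • β = a • u := by
    rcases lt_or_gt_of_ne hb with h | h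
    · refine ⟨b.natAbs, -a, Int.natAbs_pos.2 hb, ?_⟩
      rw [← natCast_zsmul, Int.natCast_natAbs, abs_of_neg h, neg_smul, neg_smul, hab]
    · refine ⟨b.natAbs, a, Int.natAbs_pos.2 hb, ?_⟩
      rw [← natCast_zsmul, Int.natCast_natAbs, abs_of_pos h, hab]
  refine sa_of_nsmul hb ?_
  rw [hab]
  rcases le_or_gt 0 a with ha | ha
  · obtain ⟨a', rfl⟩ := Int.eq_ofNat_of_zero_le ha
    have := sa_nsmul (sa_u hF) a'
    rwa [← natCast_zsmul] at this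
  · obtain ⟨a', ha', rfl⟩ : ∃ a' : ℕ, 0 < a' ∧ a = -(a' : ℤ) :=
      ⟨a.natAbs, Int.natAbs_pos.2 ha.ne, by rw [Int.natCast_natAbs, abs_of_neg ha, neg_neg]⟩
    obtain ⟨β', hβ'⟩ := hn
    obtain ⟨m, hm⟩ := hF.ample (-β')
    have h1 := sa_add (hβ' (b * (m + 1))) hm
    have h2 : (b * (m + 1)) • β + β' + (-β' + m • u) = (a' * (m + 1) - m) • (-u) := by
      have h3 : (b * (m + 1)) • β = ((m + 1) * a') • (-u) := by
        rw [mul_comm b, mul_smul, hab, neg_smul, natCast_zsmul, smul_neg, smul_neg, mul_smul]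
      have h4 : m ≤ (m + 1) * a' := by nlinarith
      have h5 : ((m + 1) * a') • (-u) = ((m + 1) * a' - m) • (-u) + m • (-u) := by
        rw [← add_smul, Nat.sub_add_cancel h4]
      rw [h3, h5, mul_comm a', smul_neg m]
      abel
    rw [h2] at h1
    have h3 : 0 < a' * (m + 1) - m := by
      have : m < a' * (m + 1) := by nlinarith
      omega
    have h4 := sa_nsmul (sa_of_nsmul h3 h1) a'
    rwa [smul_neg, ← natCast_zsmul, ← neg_smul] at h4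

end Rank

end Pool.Agent.D0H8.PQ
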