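import Pool.Agent.X324.CF.Defs

/-!
# Abundance on quotients `(A × F) / G`: definitions
-/

set_option autoImplicit false

namespace Pool.Agent.D0H8.PQ

open Pool.Agent.W594.SYZ2 Pool.Agent.TH735.AQ Pool.Agent.X324.CF

section Fibre

variable {ρ : ℕ} {R : Type*} [CommRing R] [Algebra ℂ R] (𝒜 : Cl ρ → Submodule ℂ R)

/-- The sheaf `O_F(m β)` is generated by its global sections at every point of `F`. -/
def FreeF (u β : Cl ρ) (m : ℕ) : Prop :=
  ∀ p : R →ₐ[ℂ] ℂ, Semistable 𝒜 u p → ∃ r ∈ 𝒜 (m • β), p r ≠ 0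

/-- The class `β` is nef on `F`: for some class `β'` all the classes `k β + β'`, `k ≥ 0`, are
semiample. (A nef class has this property for every ample class `β'`; conversely
`β = lim (β + β' / k)` is then a limit of nef classes.) -/
def NefF (u β : Cl ρ) : Prop := ∃ β' : Cl ρ, ∀ k : ℕ, SemiampleF 𝒜 u (k • β + β')

/-- `F` is a normal projective variety with free class group `Cl(F) = ℤ^ρ` and ample class `u`, and
`R = ⨁ H⁰(F, O_F(β))` is its Cox ring, which need not be finitely generated: `F` is not empty, the only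
functions on `F` are the constants, a section which vanishes at all points of `F` is zero, the classes
of effective divisors generate `Cl(F)`, and every class becomes semiample when a multiple of `u` is
added (`F` is `ℚ`-factorial). -/
structure IsFibre (u : Cl ρ) : Prop where
  point : ∃ p : R →ₐ[ℂ] ℂ, Semistable 𝒜 u p
  const : ∀ r ∈ 𝒜 0, ∃ c : ℂ, r = algebraMap ℂ R c
  sep : ∀ β, ∀ r ∈ 𝒜 β, r ≠ 0 → ∃ p : R →ₐ[ℂ] ℂ, Semistable 𝒜 u p ∧ p r ≠ 0
  gens : ∀ H : AddSubgroup (Cl ρ), (∀ β, (∃ r ∈ 𝒜 β, r ≠ 0) → β ∈ H) → H = ⊤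
  ample : ∀ β : Cl ρ, ∃ m : ℕ, SemiampleF 𝒜 u (β + m • u)

end Fibre

section Quotient

variable {V R : Type*} [NormedAddCommGroup V] [NormedSpace ℂ V] [CommRing R] [Algebra ℂ R]
  {ρ : ℕ} {𝒜 : Cl ρ → Submodule ℂ R} {Γ : Grp V R}

/-- The reflexive power `𝓛^[M]` is a line bundle generated by its global sections: at every point of
`X = (V × F) / Γ`, given by `v` and `p`, some section does not vanish. (For the sheaf of a Weil divisor
`D` this says that `M D` is Cartier and `|M D|` has no base points.) -/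
def Free (𝓛 : Sheaf 𝒜 Γ) (u : Cl ρ) (M : ℕ) : Prop :=
  ∀ (v : V) (p : R →ₐ[ℂ] ℂ), Semistable 𝒜 u p → ∃ f, 𝓛.IsPowSection M f ∧ p (f v) ≠ 0

/-- The sheaf with Chern form `H` is nef: its pullback to `A × F` is `L ⊠ O_F(deg)`, where `L` has the
Chern form `H`; so it is nef if and only if `H` is positive semidefinite and `deg` is nef on `F`. -/
def Nef (𝓛 : Sheaf 𝒜 Γ) (u : Cl ρ) (H : V → V → ℂ) : Prop := IsNefForm H ∧ NefF 𝒜 u 𝓛.deg

/-- Some positive reflexive power of the sheaf has a section which is not zero: the Iitaka dimension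
is not `-∞`. -/
def Effective (𝓛 : Sheaf 𝒜 Γ) : Prop := ∃ m : ℕ, 1 ≤ m ∧ ∃ f, 𝓛.IsPowSection m f ∧ ∃ v, f v ≠ 0

/-- The finite group of the automorphisms of `R` which occur in `Γ`. -/
def autF (Γ : Grp V R) : Subgroup (R ≃ₐ[ℂ] R) := Γ.map (MonoidHom.snd _ _)

/-- The sheaf `𝓛^[k] ⊗ 𝓤` (its reflexive hull). -/
def twist (𝓛 𝓤 : Sheaf 𝒜 Γ) (k : ℕ) : Sheaf 𝒜 Γ where
  deg := k • 𝓛.deg + 𝓤.deg
  e := fun γ v => 𝓛.e γ v ^ k * 𝓤.e γ v
  holo := fun γ => ((𝓛.holo γ).pow k).mul (𝓤.holo γ)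
  ne_zero := fun γ v => mul_ne_zero (pow_ne_zero k (𝓛.ne_zero γ v)) (𝓤.ne_zero γ v)
  mul := fun γ δ v => by rw [𝓛.mul, 𝓤.mul]; ring
  inv := fun γ hγ σ hσ => by rw [map_add, map_nsmul, 𝓛.inv γ hγ σ hσ, 𝓤.inv γ hγ σ hσ]
  triv := fun γ χ h1 h2 v => by
    have h3 := 𝓛.triv γ χ h1 h2 v
    have h4 := 𝓤.triv γ χ h1 h2 v
    rw [ofAdd_add, ofAdd_nsmul, map_mul, map_pow]
    calc 𝓛.e γ v ^ k * 𝓤.e γ v * (χ (Multiplicative.ofAdd 𝓛.deg) ^ k *
          χ (Multiplicative.ofAdd 𝓤.deg))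
        = (𝓛.e γ v * χ (Multiplicative.ofAdd 𝓛.deg)) ^ k *
          (𝓤.e γ v * χ (Multiplicative.ofAdd 𝓤.deg)) := by ring
      _ = 1 := by rw [h3, h4, one_pow, mul_one]

end Quotient

end Pool.Agent.D0H8.PQ
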