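import Pool.Agent.D0H8.PQ.Main
import Pool.Agent.R800.UB.Root
import Pool.Agent.X324.CF.Aut2

/-!
# Log abundance on quotients `(A × F) / G`
-/

set_option autoImplicit false

namespace Pool.Agent.D0H8.PQ

open Pool.Agent.W594.SYZ2 Pool.Agent.W594.SYZ2.TQ Pool.Agent.TH735.AQ Pool.Agent.X324.CF
open Pool.Agent.R893.TQ (BaseFree)
open Pool.Agent.R800.UA (gl3 gl3_pos card_dvd baseFree_of_dvd natCast_mul_re)
open Pool.Agent.R800.UB (fibration_root bpf_of_pullsBack root_of_mero)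

/-! ### Line bundles on torus quotients -/

section LB

variable {V : Type*} [NormedAddCommGroup V] [NormedSpace ℂ V]
  {Γ Γ₀ : Subgroup (V ≃ᵃ[ℂ] V)} {L : LineBundle Γ} {H : V → V → ℂ} {F : V → ℂ}

/-- The pullback to the quotient by a smaller group. -/
def restr (h : Γ₀ ≤ Γ) (L : LineBundle Γ) : LineBundle Γ₀ where
  e := fun γ v => L.e ⟨γ.1, h γ.2⟩ v
  holo := fun _ => L.holo _
  ne_zero := fun _ v => L.ne_zero _ v
  mul := fun γ δ v => L.mul ⟨γ.1, h γ.2⟩ ⟨δ.1, h δ.2⟩ v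
  stab := fun _ _ hv => L.stab _ _ hv

omit [NormedAddCommGroup V] [NormedSpace ℂ V] in
theorem nef_nat (hn : IsNefForm H) (k : ℕ) : IsNefForm (fun v w => (k : ℂ) * H v w) := by
  intro v
  change 0 ≤ ((k : ℂ) * H v v).re
  rw [natCast_mul_re]
  exact mul_nonneg (Nat.cast_nonneg _) (hn v)

theorem restr_pot (h : Γ₀ ≤ Γ) (hF : IsPot L H F) : IsPot (restr h L) H F :=
  ⟨hF.1, fun γ v => hF.2 ⟨γ.1, h γ.2⟩ v⟩

theorem restr_chi (h : Γ₀ ≤ Γ) {b : V} (hb : b ∈ latt Γ₀) :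
    chi (restr h L) F b = chi L F b := by
  rw [chi_eq hb, chi_eq (show b ∈ latt Γ from h hb)]
  rfl

theorem pow_pot (hF : IsPot L H F) (k : ℕ) :
    IsPot (L.pow k) (fun v w => (k : ℂ) * H v w) (fun v => (k : ℂ) * F v) := by
  refine ⟨hF.1.const_mul _, fun γ v => ?_⟩
  change ‖L.e γ v ^ k‖ ^ 2 = _
  rw [norm_pow, ← pow_mul, mul_comm, pow_mul, hF.2, ← Real.exp_nat_mul]
  congr 1
  rw [natCast_mul_re, natCast_mul_re, natCast_mul_re, natCast_mul_re]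
  ring

theorem pow_chi (k : ℕ) {b : V} (hb : b ∈ latt Γ) :
    chi (L.pow k) (fun v => (k : ℂ) * F v) b = chi L F b ^ k := by
  rw [chi_eq hb, chi_eq hb, tw, tw, mul_pow, ← Complex.exp_nat_mul, mul_sub]
  rfl

theorem chi_nsmul [FiniteDimensional ℂ V] (hH : IsHermitian H) (hF : IsPot L H F) {b : V}
    (hb : b ∈ latt Γ) (hbK : b ∈ ker hH) (k : ℕ) : chi L F (k • b) = chi L F b ^ k := by
  induction k with
  | zero => rw [zero_smul, chi_zero, pow_zero]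
  | succ k ih =>
    rw [succ_nsmul, chi_add hH hF ((latt Γ).nsmul_mem hb k) (nsmul_mem hbK k) hb hbK, ih, pow_succ]

theorem prod_ne {ι : Type*} (s : Finset ι) (f : ι → V → ℂ) (hd : ∀ i, Differentiable ℂ (f i))
    (h0 : ∀ i, ∃ v, f i v ≠ 0) : ∃ v, ∏ i ∈ s, f i v ≠ 0 := by
  classical
  induction s using Finset.induction_on with
  | empty => exact ⟨0, by simp⟩
  | insert a s ha ih =>
    obtain ⟨v, h1, h2⟩ := exists_common (hd a) (diff_prod s f fun i _ => hd i) (h0 a) ih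
    exact ⟨v, by rw [Finset.prod_insert ha]; exact mul_ne_zero h1 h2⟩

end LB

/-! ### Log canonical divisors on `X` -/

section Adj

variable {V R : Type*} [NormedAddCommGroup V] [NormedSpace ℂ V] [CommRing R] [Algebra ℂ R]
  {ρ : ℕ} {𝒜 : Cl ρ → Submodule ℂ R} {Γ : Grp V R} {u : Cl ρ} {H : V → V → ℂ}

/-- `D ~_ℚ N (K_X + Δ)`, where `𝓛 = O_X(D)` and `Δ = ∑ i, r i • div (s i)`: for some `j > 0` such that all
`j N r i = k i` are integers, `j D` and `j N K_X + ∑ i, k i div (s i)` have the same factor of automorphy.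
Here `η` defines the ramification divisor of `V → V / Γ₀`, `Γ₀ = vert 𝒜 Γ`, and the sections of
`O_X(M K_X)` are the invariant forms `g η ^ M (dv) ^ M`, where `g` is a holomorphic function on `V` whose
values are `M`-canonical forms on `F` (with zeros along the fixed divisors of `F`); so the factor of
`M K_X` is `(η(v) / (det(a) η(a v))) ^ M` for `γ = (a, φ)`, up to a root of unity which disappears in a
multiple. (The function `η` is only determined up to a unit, so isomorphic sheaves `𝓛` are included; and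
the class of `K_X` on `F` is not used.) -/
def IsAdjoint (𝒜 : Cl ρ → Submodule ℂ R) (Γ : Grp V R) {ι : Type*} [Fintype ι]
    (Δ : EffDiv 𝒜 Γ ι) (N : ℕ) (𝓛 : Sheaf 𝒜 Γ) : Prop :=
  ∃ (η : V → ℂ) (j : ℕ) (k : ι → ℕ), IsRamification (vert 𝒜 Γ) η ∧ 0 < j ∧
    (∀ i, ((j * N : ℕ) : ℝ) * Δ.r i = k i) ∧ ∀ (γ : Γ) (v : V),
      𝓛.e γ v ^ j * LinearMap.det (γ.1.1.linear : V →ₗ[ℂ] V) ^ (j * N) * η (γ.1.1 v) ^ (j * N) =
        η v ^ (j * N) * ∏ i, (Δ.L i).e γ v ^ k i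

variable [FiniteDimensional ℂ V] [IsDomain R] [GradedAlgebra 𝒜]

/-- The character of a log canonical divisor on the lattice vectors in the kernel of its Chern form. -/
theorem adj_root (hsep : ∀ β, ∀ r ∈ 𝒜 β, r ≠ 0 → ∃ p : R →ₐ[ℂ] ℂ, p r ≠ 0)
    (hQ : IsQuotient 𝒜 u Γ) {ι : Type*} [Fintype ι] (Δ : EffDiv 𝒜 Γ ι) {M : ℕ}
    {𝓜 : Sheaf 𝒜 Γ} {η : V → ℂ} {k : ι → ℕ} (hη : IsRamification (vert 𝒜 Γ) η)
    (hE : ∀ (γ : Γ) (v : V),
      𝓜.e γ v * LinearMap.det (γ.1.1.linear : V →ₗ[ℂ] V) ^ M * η (γ.1.1 v) ^ M =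
        η v ^ M * ∏ i, (Δ.L i).e γ v ^ k i)
    {F : V → ℂ} (hH : IsHermitian H) (hpot : IsPot (𝓜.toLB hQ) H F) (hn : IsNefForm H) :
    ∀ b ∈ latt (base Γ), b ∈ ker hH →
      chi (𝓜.toLB hQ) F b ^ (Nat.card (gal Γ) * Nat.card (Lin (vert 𝒜 Γ))) = 1 := by
  classical
  have := hQ.fin_gal
  have : Fintype (gal Γ) := Fintype.ofFinite _
  have hP : ∀ i, ∃ P : V → ℂ, Differentiable ℂ P ∧ (∃ v, P v ≠ 0) ∧
      ∀ (γ : Γ) (v : V), P (γ.1.1 v) = (Δ.L i).e γ v ^ Nat.card (gal Γ) * P v := by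
    intro i
    obtain ⟨v₀, hv₀⟩ := Δ.ne_zero i
    obtain ⟨p, hp⟩ := hsep _ _ (nrm_mem (𝒜 := 𝒜) (K := gal Γ)
      (fun φ hφ r hr => gal_mem hQ (Δ.L i).inv hφ hr) ((Δ.sect i).mem v₀))
      (nrm_ne_zero (K := gal Γ) hv₀)
    refine ⟨fun v => p (nrm (gal Γ) (Δ.s i v)), ?_, ⟨v₀, hp⟩, fun γ v => ?_⟩
    · have h2 : (fun v => p (nrm (gal Γ) (Δ.s i v))) = fun v => ∏ ψ : gal Γ, p (ψ.1 (Δ.s i v)) := by
        funext v
        rw [nrm, map_prod]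
      rw [h2]
      exact diff_prod Finset.univ (fun (ψ : gal Γ) v => p (ψ.1 (Δ.s i v))) fun ψ _ =>
        (Δ.sect i).holo (p.toLinearMap ∘ₗ ψ.1.toLinearMap)
    · change p (nrm (gal Γ) (Δ.s i (γ.1.1 v))) = _
      rw [(Δ.sect i).eq γ v, nrm_smul_map (mem_gal γ.2), map_smul, smul_eq_mul,
        Nat.card_eq_fintype_card]
  choose P hPd hP0 hPe using hP
  let θ : V → ℂ := fun v => ∏ i, P i v ^ (Nat.card (Lin (base Γ)) * k i)
  have hθ : Differentiable ℂ θ :=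
    diff_prod Finset.univ (fun i v => P i v ^ (Nat.card (Lin (base Γ)) * k i))
      fun i _ => (hPd i).pow _
  have hθ0 : ∃ v, θ v ≠ 0 := prod_ne Finset.univ
    (fun i v => P i v ^ (Nat.card (Lin (base Γ)) * k i)) (fun i => (hPd i).pow _)
    fun i => ⟨(hP0 i).choose, pow_ne_zero _ (hP0 i).choose_spec⟩
  have hθe : ∀ (γ : Γ) (v : V), θ (γ.1.1 v) = (∏ i, (Δ.L i).e γ v ^ k i) ^ expo Γ * θ v := by
    intro γ v
    simp only [θ]
    rw [← Finset.prod_pow, ← Finset.prod_mul_distrib]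
    refine Finset.prod_congr rfl fun i _ => ?_
    rw [hPe, mul_pow, ← pow_mul, ← pow_mul, expo]
    congr 2
    ring
  obtain ⟨v₁, hv₁, hv₁'⟩ := exists_common hθ hη.holo hθ0 (ram_ne_zero hη)
  have hroot := root_of_mero (vert_torus hQ) hH (restr_pot (vert_le (𝒜 := 𝒜)) hpot) hn hθ
    (hη.holo.pow (M * expo Γ)) ⟨v₁, hv₁, fun h => hv₁' ((hη.zero_iff v₁).2 h)⟩
    (fun w hw => (hη.zero_iff w).1 (eq_zero_of_pow_eq_zero hw)) (by
      intro b hb v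
      obtain ⟨γ, ⟨hγ, -⟩, hγb⟩ := id hb
      have h5 : γ.1 = AffineEquiv.constVAdd ℂ V b := hγb
      have h6 := hE ⟨γ, hγ⟩ v
      have h7 : LinearMap.det (γ.1.linear : V →ₗ[ℂ] V) = 1 := by
        have h8 : (γ.1.linear : V →ₗ[ℂ] V) = LinearMap.id := by
          ext w
          rw [h5]
          rfl
        rw [h8, LinearMap.det_id]
      have h9 : γ.1 v = b + v := by rw [h5]; rfl
      have h10 := hθe ⟨γ, hγ⟩ v
      have h11 : (restr (vert_le (𝒜 := 𝒜)) (𝓜.toLB hQ)).e (tr b hb) v = 𝓜.e ⟨γ, hγ⟩ v ^ expo Γ := by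
        rw [← 𝓜.toLB_e hQ ⟨γ, hγ⟩ v]
        change (𝓜.toLB hQ).e _ v = _
        congr 1
        exact Subtype.ext hγb.symm
      change 𝓜.e ⟨γ, hγ⟩ v * LinearMap.det (γ.1.linear : V →ₗ[ℂ] V) ^ M * η (γ.1 v) ^ M = _ at h6
      change θ (γ.1 v) = _ at h10
      rw [h7, one_pow, mul_one, h9] at h6
      rw [h9] at h10
      rw [h11, h10]
      change (∏ i, (Δ.L i).e ⟨γ, hγ⟩ v ^ k i) ^ expo Γ * θ v * η v ^ (M * expo Γ) =
        𝓜.e ⟨γ, hγ⟩ v ^ expo Γ * θ v * η (b + v) ^ (M * expo Γ)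
      rw [pow_mul, pow_mul]
      calc (∏ i, (Δ.L i).e ⟨γ, hγ⟩ v ^ k i) ^ expo Γ * θ v * (η v ^ M) ^ expo Γ
          = (η v ^ M * ∏ i, (Δ.L i).e ⟨γ, hγ⟩ v ^ k i) ^ expo Γ * θ v := by rw [mul_pow]; ring
        _ = _ := by rw [← h6, mul_pow]; ring)
  intro b hb hbK
  have h1 := trans_le_vert (𝒜 := 𝒜) (card_smul_latt hQ hb)
  have h2 := hroot _ h1 (nsmul_mem hbK _)
  rw [restr_chi _ h1, chi_nsmul hH hpot hb hbK, ← pow_mul] at h2
  exact h2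

/-- Log abundance: if `D ~_ℚ N (K_X + Δ)` is nef and its class is semiample on `F`, then `D` is
semiample. -/
theorem adj_semiample (hsep : ∀ β, ∀ r ∈ 𝒜 β, r ≠ 0 → ∃ p : R →ₐ[ℂ] ℂ, p r ≠ 0)
    (hQ : IsQuotient 𝒜 u Γ) {ι : Type*} [Fintype ι] {Δ : EffDiv 𝒜 Γ ι} {N : ℕ}
    {𝓛 : Sheaf 𝒜 Γ} (hF : SemiampleF 𝒜 u 𝓛.deg) (hc : 𝓛.IsChern H) (hn : IsNefForm H)
    (hA : IsAdjoint 𝒜 Γ Δ N 𝓛) : 𝓛.IsSemiample u := by
  classical
  have := hQ.fin_gal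
  have hfin := finite_Lin (vert_torus (𝒜 := 𝒜) hQ)
  obtain ⟨k₀, hk₀, h2⟩ := hF
  obtain ⟨η, j, k, hη, hj, -, hE⟩ := hA
  have h3 : FreeF 𝒜 u (𝓛.pow j).deg k₀ := FreeF.nsmul (m := k₀) h2 j
  obtain ⟨hH', F, hFd, hFe⟩ := (𝓛.pow j).toLB_chern hQ (Sheaf.chern_pow hc j)
  have hpot : IsPot ((𝓛.pow j).toLB hQ) (fun v w => (expo Γ : ℂ) * ((j : ℂ) * H v w)) F :=
    ⟨hFd, hFe⟩
  have hn' : IsNefForm (fun v w => (expo Γ : ℂ) * ((j : ℂ) * H v w)) :=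
    nef_nat (nef_nat hn j) _
  have hr := adj_root hsep hQ Δ hη hE hH' hpot hn'
  obtain ⟨e, he⟩ : ∃ e : ℕ, e = Nat.card (gal Γ) * Nat.card (Lin (vert 𝒜 Γ)) := ⟨_, rfl⟩
  rw [← he] at hr
  have he0 : 0 < e := by
    rw [he]
    exact Nat.mul_pos Nat.card_pos Nat.card_pos
  have hH'' := (Pool.Agent.R893.TQ.chern_pow ⟨hH', F, hFd, hFe⟩ e).1
  obtain ⟨k', Δ', π, -, hfib, hpb⟩ := fibration_root hQ.torus rfl hH'' (pow_pot hpot e)
    (nef_nat hn' e) (by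
      intro b hb hbK
      have h4 : b ∈ ker hH' := by
        intro w
        have h5 := hbK w
        exact (mul_eq_zero.1 h5).resolve_left (Nat.cast_ne_zero.2 he0.ne')
      rw [pow_chi e hb, hr b hb h4, one_pow])
  have h4 := bpf_of_pullsBack hfib hpb
  have h5 : BaseFree (((𝓛.pow j).toLB hQ).pow (e * (4 * gl3 (Module.finrank ℂ V) ^ 7))) := by
    intro v
    obtain ⟨s, hs, hsv⟩ := h4 v
    refine ⟨s, ⟨hs.holo, fun γ w => ?_⟩, hsv⟩
    have h6 := hs.eq γ w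
    change s _ = (((𝓛.pow j).toLB hQ).e γ w ^ e) ^ (4 * gl3 (Module.finrank ℂ V) ^ 7) * s w at h6
    rw [← pow_mul] at h6
    exact h6
  have h6 := free_pow (free_of hQ (𝓛.pow j) h5 h3)
  refine ⟨_, ?_, h6⟩
  have h7 := expo_pos hQ
  have h8 := gl3_pos (Module.finrank ℂ V)
  positivity

end Adj

end Pool.Agent.D0H8.PQ
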