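import Pool.Agent.D0H8.PQ.Main

/-!
# Numerical abundance on quotients `(A × F) / G`
-/

set_option autoImplicit false

namespace Pool.Agent.D0H8.PQ

open Pool.Agent.W594.SYZ2 Pool.Agent.W594.SYZ2.TQ Pool.Agent.TH735.AQ Pool.Agent.X324.CF
open Pool.Agent.R893.TQ (BaseFree)
open Pool.Agent.R800.UA (gl3 gl3_pos card_dvd numerical_uni natCast_mul_re)

variable {V R : Type*} [NormedAddCommGroup V] [NormedSpace ℂ V] [CommRing R] [Algebra ℂ R]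
  {ρ n : ℕ} {𝒜 : Cl ρ → Submodule ℂ R} {Γ : Grp V R} {u : Cl ρ} {H : V → V → ℂ}

/-- The sheaf with degree `(expo Γ * t) • deg 𝓛` given by a line bundle on the quotient of `V`. -/
noncomputable def mk (hQ : IsQuotient 𝒜 u Γ) (𝓛 : Sheaf 𝒜 Γ) (L : LineBundle (base Γ)) (t : ℕ) :
    Sheaf 𝒜 Γ where
  deg := (expo Γ * t) • 𝓛.deg
  e := fun γ v => L.e ⟨γ.1.1, mem_base γ.2⟩ v
  holo := fun γ => L.holo _
  ne_zero := fun γ v => L.ne_zero _ v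
  mul := fun γ δ v => L.mul ⟨γ.1.1, mem_base γ.2⟩ ⟨δ.1.1, mem_base δ.2⟩ v
  inv := 𝓛.inv.nsmul _
  triv := fun γ χ h1 h2 v => by
    have hv : γ.1.1 v = v := by
      rw [h1]
      rfl
    have h3 : L.e ⟨γ.1.1, mem_base γ.2⟩ v = 1 := L.stab _ _ hv
    have h4 := 𝓛.triv γ χ h1 h2 v
    have h5 := Sheaf.e_fix hQ 𝓛 hv
    have h6 : χ (Multiplicative.ofAdd 𝓛.deg) ^ expo Γ = 1 := by
      have h7 : (𝓛.e γ v * χ (Multiplicative.ofAdd 𝓛.deg)) ^ expo Γ = 1 := by rw [h4, one_pow]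
      rwa [mul_pow, h5, one_mul] at h7
    rw [h3, ofAdd_nsmul, map_pow, pow_mul, h6, one_pow, one_mul]

theorem mk_chern {hQ : IsQuotient 𝒜 u Γ} {𝓛 : Sheaf 𝒜 Γ} {L : LineBundle (base Γ)} {t : ℕ}
    (h : IsChernForm L H) : (mk hQ 𝓛 L t).IsChern H := by
  obtain ⟨hH, F, hF, hFe⟩ := h
  exact ⟨hH, F, hF, fun γ v => hFe ⟨γ.1.1, mem_base γ.2⟩ v⟩

variable [FiniteDimensional ℂ V] [GradedAlgebra 𝒜]

theorem mk_free {hQ : IsQuotient 𝒜 u Γ} {𝓛 : Sheaf 𝒜 Γ} {L : LineBundle (base Γ)} {t m : ℕ}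
    (hL : BaseFree L) (hm : FreeF 𝒜 u 𝓛.deg m) : Free (mk hQ 𝓛 L (t * m)) u 1 := by
  classical
  have := hQ.fin_gal
  have : Fintype (gal Γ) := Fintype.ofFinite _
  intro v p hp
  obtain ⟨s, hs, hsv⟩ := hL v
  obtain ⟨r, hr, hr0⟩ := exists_nonvanish (K := gal Γ) (𝒜 := 𝒜) (β := m • 𝓛.deg) (p := p) (by
      intro φ
      have hq := semistable_comp hQ hp φ.2
      obtain ⟨r, hr, hr0⟩ := hm _ hq
      exact ⟨r, hr, hr0⟩)
  refine ⟨fun w => s w • nrm (gal Γ) r ^ (Nat.card (Lin (base Γ)) * t),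
    ⟨fun w => ?_, fun ℓ => ?_, fun γ w => ?_⟩, ?_⟩
  · refine (𝒜 _).smul_mem _ ?_
    have h1 := nrm_mem (𝒜 := 𝒜) (K := gal Γ) (fun φ hφ r hr => gal_mem hQ (𝓛.inv.nsmul m) hφ hr) hr
    have h2 := SetLike.pow_mem_graded (Nat.card (Lin (base Γ)) * t) h1
    have h3 : (Nat.card (Lin (base Γ)) * t) • (Fintype.card (gal Γ) • m • 𝓛.deg)
        = 1 • ((expo Γ * (t * m)) • 𝓛.deg) := by
      rw [← Nat.card_eq_fintype_card, expo, smul_smul, smul_smul, one_smul]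
      congr 1
      ring
    rwa [h3] at h2
  · have h1 : (fun w => ℓ (s w • nrm (gal Γ) r ^ (Nat.card (Lin (base Γ)) * t)))
        = fun w => s w * ℓ (nrm (gal Γ) r ^ (Nat.card (Lin (base Γ)) * t)) := by
      funext w
      rw [map_smul, smul_eq_mul]
    rw [h1]
    exact hs.holo.mul_const _
  · rw [map_smul, map_pow, nrm_fix (mem_gal γ.2), smul_smul, pow_one]
    congr 1
    exact hs.eq ⟨γ.1.1, mem_base γ.2⟩ w
  · rw [map_smul, map_pow, smul_eq_mul]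
    exact mul_ne_zero hsv (pow_ne_zero _ hr0)

/-- Numerical abundance, without condition on `H^1(X, O_X)`. -/
theorem numerical (hQ : IsQuotient 𝒜 u Γ) (hd : Module.finrank ℂ V = n) {𝓛 : Sheaf 𝒜 Γ}
    (hc : 𝓛.IsChern H) (hn : IsNefForm H) {m : ℕ} (hm : FreeF 𝒜 u 𝓛.deg m) :
    ∃ 𝓜 : Sheaf 𝒜 Γ, 𝓜.deg = (4 * gl3 n ^ 4 * Nat.card (autF Γ) * m) • 𝓛.deg ∧
      𝓜.IsChern (fun v w => ((4 * gl3 n ^ 4 * Nat.card (autF Γ) * m : ℕ) : ℂ) * H v w) ∧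
      Free 𝓜 u 1 := by
  obtain ⟨c, hcn⟩ := card_dvd hQ.torus hd
  obtain ⟨L, hL, hs⟩ := numerical_uni hQ.torus hd (𝓛.toLB_chern hQ hc) (nef_expo hn)
  have h4 : expo Γ * (4 * gl3 n ^ 3 * c * m) = 4 * gl3 n ^ 4 * Nat.card (autF Γ) * m := by
    rw [expo, autF_eq]
    calc Nat.card (Lin (base Γ)) * Nat.card (gal Γ) * (4 * gl3 n ^ 3 * c * m)
        = 4 * (gl3 n ^ 3 * (Nat.card (Lin (base Γ)) * c)) * Nat.card (gal Γ) * m := by ring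
      _ = 4 * gl3 n ^ 4 * Nat.card (gal Γ) * m := by rw [← hcn, ← pow_succ]
  refine ⟨mk hQ 𝓛 (L.pow (c * m)) (4 * gl3 n ^ 3 * c * m), ?_, ?_, mk_free (hs.pow _) hm⟩
  · change (expo Γ * (4 * gl3 n ^ 3 * c * m)) • 𝓛.deg = _
    rw [h4]
  · have h5 := mk_chern (hQ := hQ) (𝓛 := 𝓛) (t := 4 * gl3 n ^ 3 * c * m)
      (Pool.Agent.R893.TQ.chern_pow hL (c * m))
    have h6 : (fun v w => ((c * m : ℕ) : ℂ) * (((4 * gl3 n ^ 3 : ℕ) : ℂ) * ((expo Γ : ℂ) * H v w)))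
        = fun v w => ((4 * gl3 n ^ 4 * Nat.card (autF Γ) * m : ℕ) : ℂ) * H v w := by
      funext v w
      rw [← h4]
      push_cast
      ring
    rwa [h6] at h5

end Pool.Agent.D0H8.PQ
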